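import Pool.Agent.H168DD.TB

/-!
Cubic graphs whose vertex set is partitioned into triangles (truncations of cubic multigraphs):
the upper bound `γ_t ≤ N + 2⌊(N+2)/12⌋`, where `N` is the number of triangles.
-/

namespace R45.CFD

open SimpleGraph Finset

set_option linter.unusedSectionVars false

/-- a triangle structure on the graph `G`: the fibres of `τ` are triangles, `p` is the perfect
matching of the remaining edges -/
structure Tri {V ι : Type*} [Fintype V] [DecidableEq V] [DecidableEq ι]
    (G : SimpleGraph V) (τ : V → ι) (p : V → V) : Prop where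
  pp : ∀ v, p (p v) = v
  ne : ∀ v, τ (p v) ≠ τ v
  fib : ∀ v, (univ.filter (fun u => τ u = τ v)).card = 3
  adj : ∀ u v, G.Adj u v ↔ (u ≠ v ∧ τ u = τ v) ∨ v = p u

section Quot

variable {V : Type*} [Fintype V] [DecidableEq V]

/-- number of classes of a connected graph is at most the number of edges between classes plus 1 -/
lemma quot_card {W : Type*} [DecidableEq W] (G : SimpleGraph V) (hc : G.Connected) (q : V → W)
    (E : Finset V) (p : V → V)
    (hE : ∀ u v, G.Adj u v → q u ≠ q v → ∃ w ∈ E, s(q u, q v) = s(q w, q (p w))) :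
    (univ.image q).card ≤ E.card + 1 := by
  classical
  let Q : SimpleGraph (Set.range q) :=
    { Adj := fun x y => x ≠ y ∧ ∃ u v, q u = x ∧ q v = y ∧ G.Adj u v
      symm := ⟨fun x y h => by
        obtain ⟨hne, u, v, hu, hv, ha⟩ := h
        exact ⟨hne.symm, v, u, hv, hu, ha.symm⟩⟩
      loopless := ⟨fun x h => h.1 rfl⟩ }
  have hstep : ∀ u v, G.Adj u v → Q.Reachable ⟨q u, u, rfl⟩ ⟨q v, v, rfl⟩ := by
    intro u v h
    by_cases he : q u = q v
    · have : (⟨q u, u, rfl⟩ : Set.range q) = ⟨q v, v, rfl⟩ := Subtype.ext he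
      rw [this]
    · exact SimpleGraph.Adj.reachable ⟨fun e => he (congrArg Subtype.val e), u, v, rfl, rfl, h⟩
  have hreach : ∀ u v, G.Reachable u v → Q.Reachable ⟨q u, u, rfl⟩ ⟨q v, v, rfl⟩ := by
    intro u v h
    obtain ⟨w⟩ := h
    induction w with
    | nil => exact SimpleGraph.Reachable.refl _
    | cons ha _ ih => exact (hstep _ _ ha).trans ih
  have hQ : Q.Connected := by
    have := hc.nonempty
    have : Nonempty (Set.range q) := ⟨⟨q (Classical.arbitrary V), _, rfl⟩⟩
    refine ⟨?_⟩
    rintro ⟨_, u, rfl⟩ ⟨_, v, rfl⟩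
    exact hreach u v (hc.preconnected u v)
  have h1 := hQ.card_vert_le_card_edgeSet_add_one
  have h2 : Nat.card (Set.range q) = (univ.image q).card := by
    rw [Nat.card_eq_fintype_card, ← Set.toFinset_card]
    congr 1
    ext x; simp
  have h3 : Nat.card Q.edgeSet ≤ E.card := by
    have hsurj : ∀ e : Q.edgeSet, ∃ w : E, Sym2.map Subtype.val e.1 = s(q w, q (p w)) := by
      rintro ⟨e, he⟩
      induction e using Sym2.ind with
      | _ x y =>
        obtain ⟨hne, u, v, hu, hv, ha⟩ := he
        have hq : q u ≠ q v := by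
          intro h; apply hne; apply Subtype.ext; rw [← hu, ← hv, h]
        obtain ⟨w, hw, e⟩ := hE u v ha hq
        refine ⟨⟨w, hw⟩, ?_⟩
        rw [Sym2.map_mk, ← hu, ← hv]
        exact e
    choose f hf using hsurj
    have hinj : Function.Injective f := by
      intro e e' h
      have h1 := hf e
      have h2 := hf e'
      rw [h] at h1
      apply Subtype.ext
      exact Sym2.map.injective Subtype.val_injective (h1.trans h2.symm)
    have := Nat.card_le_card_of_injective f hinj
    simpa using this
  omega

end Quot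

variable {V ι : Type*} [Fintype V] [DecidableEq V] [DecidableEq ι]
variable {G : SimpleGraph V} {τ : V → ι} {p : V → V}

lemma Tri.inj (h : Tri G τ p) : Function.Injective p := by
  intro a b e
  rw [← h.pp a, e, h.pp b]

lemma Tri.pne (h : Tri G τ p) (v : V) : p v ≠ v := by
  intro e; apply h.ne v; rw [e]

/-- the vertices lying in the triangles of `O` -/
def ver (τ : V → ι) (O : Finset ι) : Finset V := univ.filter (fun v => τ v ∈ O)

lemma mem_ver {O : Finset ι} {v : V} : v ∈ ver τ O ↔ τ v ∈ O := by simp [ver]

lemma Tri.card_ver (h : Tri G τ p) {O : Finset ι} (hO : O ⊆ univ.image τ) :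
    (ver τ O).card = 3 * O.card := by
  have h1 : (ver τ O).card = ∑ t ∈ O, ((ver τ O).filter (fun v => τ v = t)).card :=
    Finset.card_eq_sum_card_fiberwise (fun v hv => by simpa [ver] using hv)
  rw [h1, Finset.sum_congr rfl (g := fun _ => 3), Finset.sum_const, smul_eq_mul, mul_comm]
  intro t ht
  obtain ⟨v, _, rfl⟩ := Finset.mem_image.1 (hO ht)
  rw [← h.fib v]
  congr 1
  ext u
  simp only [ver, Finset.mem_filter, Finset.mem_univ, true_and]
  constructor
  · exact fun hu => hu.2
  · intro hu; exact ⟨by rw [hu]; exact ht, hu⟩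

lemma Tri.card_V (h : Tri G τ p) : Fintype.card V = 3 * (univ.image τ).card := by
  rw [← h.card_ver (Finset.Subset.refl _), ← Finset.card_univ]
  congr 1
  ext v; simp [ver]

lemma Tri.even (h : Tri G τ p) : Even (univ.image τ).card := by
  have h1 : Even (univ : Finset V).card := by
    apply H168DD.even_of_inv _ _ p rfl
    intro x _
    exact ⟨Finset.mem_univ _, h.pp x, h.pne x⟩
  rw [Finset.card_univ, h.card_V] at h1
  rw [Nat.even_mul] at h1
  exact h1.resolve_left (by decide)

/-- boundary vertices of `O` -/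
def bd (τ : V → ι) (p : V → V) (O : Finset ι) : Finset V :=
  univ.filter (fun v => τ v ∈ O ∧ τ (p v) ∉ O)

lemma Tri.bd_odd (h : Tri G τ p) {O : Finset ι} (hO : O ⊆ univ.image τ) (ho : Odd O.card) :
    Odd (bd τ p O).card := by
  have h1 : Even ((ver τ O).filter (fun v => τ (p v) ∈ O)).card := by
    apply H168DD.even_of_inv _ _ p rfl
    intro x hx
    rw [Finset.mem_filter, mem_ver] at hx ⊢
    rw [h.pp]
    exact ⟨⟨hx.2, hx.1⟩, rfl, h.pne x⟩
  have h2 := Finset.card_filter_add_card_filter_not (s := ver τ O) (fun v => τ (p v) ∈ O)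
  have h3 : (ver τ O).filter (fun v => ¬ τ (p v) ∈ O) = bd τ p O := by
    ext v; simp [ver, bd]
  rw [h3, h.card_ver hO] at h2
  obtain ⟨a, ha⟩ := h1
  obtain ⟨b, hb⟩ := ho
  rw [Nat.odd_iff]
  omega

lemma Tri.weight (h : Tri G τ p) {O : Finset ι} (hO : O ⊆ univ.image τ) (ho : Odd O.card) :
    4 ≤ O.card + (bd τ p O).card := by
  obtain ⟨a, ha⟩ := h.bd_odd hO ho
  obtain ⟨b, hb⟩ := ho
  by_cases hb0 : b = 0
  · subst hb0
    obtain ⟨t, rfl⟩ := Finset.card_eq_one.1 (by simpa using hb)
    have : bd τ p {t} = ver τ {t} := by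
      ext v
      simp only [bd, ver, Finset.mem_filter, Finset.mem_univ, true_and, Finset.mem_singleton]
      constructor
      · exact fun h => h.1
      · intro hv; refine ⟨hv, ?_⟩
        rw [← hv]; exact h.ne v
    rw [this, h.card_ver hO]
    simp
  · omega

lemma Tri.count (h : Tri G τ p) (hc : G.Connected) (A : Finset ι) (F : Finset (Finset ι))
    (hA : A ⊆ univ.image τ) (hodd : ∀ O ∈ F, Odd O.card)
    (hdisj : ∀ O ∈ F, ∀ O' ∈ F, O ≠ O' → Disjoint O O')
    (hsub : ∀ O ∈ F, O ⊆ univ.image τ \ A)
    (hclos : ∀ O ∈ F, ∀ v, τ v ∈ O → τ (p v) ∈ O ∨ τ (p v) ∈ A) :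
    6 * F.card ≤ (univ.image τ).card + 2 + 6 * A.card := by
  classical
  have hsubT : ∀ O ∈ F, O ⊆ univ.image τ := fun O hO => (hsub O hO).trans Finset.sdiff_subset
  have hdA : ∀ O ∈ F, ∀ t ∈ O, t ∉ A := fun O hO t ht => (Finset.mem_sdiff.1 (hsub O hO ht)).2
  -- first inequality
  have h1 : 4 * F.card ≤ ∑ O ∈ F, (O.card + (bd τ p O).card) := by
    rw [mul_comm, ← smul_eq_mul, ← Finset.sum_const]
    exact Finset.sum_le_sum (fun O hO => h.weight (hsubT O hO) (hodd O hO))
  have h2 : ∑ O ∈ F, O.card + A.card ≤ (univ.image τ).card := by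
    rw [← Finset.card_biUnion (by
      intro O hO O' hO' hne; exact hdisj O hO O' hO' hne)]
    rw [← Finset.card_union_of_disjoint]
    · apply Finset.card_le_card
      intro t ht
      rcases Finset.mem_union.1 ht with ht | ht
      · obtain ⟨O, hO, ht⟩ := Finset.mem_biUnion.1 ht
        exact hsubT O hO ht
      · exact hA ht
    · rw [Finset.disjoint_left]
      intro t ht ht'
      obtain ⟨O, hO, ht⟩ := Finset.mem_biUnion.1 ht
      exact hdA O hO t ht ht'
  have h3 : ∑ O ∈ F, (bd τ p O).card ≤ 3 * A.card := by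
    rw [← Finset.card_biUnion, ← h.card_ver hA]
    · apply Finset.card_le_card_of_injOn p
      · intro v hv
        obtain ⟨O, hO, hv⟩ := Finset.mem_biUnion.1 (Finset.mem_coe.1 hv)
        simp only [bd, Finset.mem_filter, Finset.mem_univ, true_and] at hv
        rw [Finset.mem_coe, mem_ver]
        exact (hclos O hO v hv.1).resolve_left hv.2
      · exact h.inj.injOn
    · intro O hO O' hO' hne
      change Disjoint (bd τ p O) (bd τ p O')
      rw [Finset.disjoint_left]
      intro v hv hv'
      simp only [bd, Finset.mem_filter, Finset.mem_univ, true_and] at hv hv'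
      exact Finset.disjoint_left.1 (hdisj O hO O' hO' hne) hv.1 hv'.1
  -- second inequality
  have h4 : F.card ≤ 2 * A.card + 1 := by
    let q : V → ι ⊕ Finset (Finset ι) := fun v =>
      if τ v ∈ A then Sum.inl (τ v) else Sum.inr (F.filter (fun O => τ v ∈ O))
    have hq := quot_card G hc q (ver τ A) p ?_
    · rw [h.card_ver hA] at hq
      have h5 : (A.disjSum (F.image (fun O => ({O} : Finset (Finset ι))))) ⊆ univ.image q := by
        intro x hx
        rw [Finset.mem_disjSum] at hx
        rcases hx with ⟨t, ht, rfl⟩ | ⟨y, hy, rfl⟩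
        · obtain ⟨v, _, rfl⟩ := Finset.mem_image.1 (hA ht)
          refine Finset.mem_image.2 ⟨v, Finset.mem_univ _, ?_⟩
          simp only [q]
          rw [if_pos ht]
        · obtain ⟨O, hO, rfl⟩ := Finset.mem_image.1 hy
          obtain ⟨t, ht⟩ : O.Nonempty := by
            rw [← Finset.card_pos]; exact (hodd O hO).pos
          obtain ⟨v, _, rfl⟩ := Finset.mem_image.1 (hsubT O hO ht)
          refine Finset.mem_image.2 ⟨v, Finset.mem_univ _, ?_⟩
          simp only [q]
          rw [if_neg (hdA O hO _ ht)]
          congr 1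
          ext O'
          simp only [Finset.mem_filter, Finset.mem_singleton]
          constructor
          · rintro ⟨hO', ht'⟩
            by_contra hne
            exact Finset.disjoint_left.1 (hdisj O' hO' O hO hne) ht' ht
          · rintro rfl; exact ⟨hO, ht⟩
      have h6 := Finset.card_le_card h5
      rw [Finset.card_disjSum, Finset.card_image_of_injective _ Finset.singleton_injective] at h6
      omega
    · intro u v huv hne
      have hτ : τ u ≠ τ v := by
        intro e; apply hne; simp only [q, e]
      have hv : v = p u := by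
        rcases (h.adj u v).1 huv with h1 | h1
        · exact absurd h1.2 hτ
        · exact h1
      by_cases hu : τ u ∈ A
      · exact ⟨u, mem_ver.2 hu, by rw [hv]⟩
      by_cases hv' : τ v ∈ A
      · refine ⟨v, mem_ver.2 hv', ?_⟩
        rw [hv, h.pp, Sym2.eq_swap]
      exfalso
      apply hne
      simp only [q]
      rw [if_neg hu, if_neg hv']
      congr 1
      ext O
      simp only [Finset.mem_filter]
      constructor
      · rintro ⟨hO, ht⟩
        refine ⟨hO, ?_⟩
        have := hclos O hO u ht
        rw [← hv] at this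
        exact this.resolve_right hv'
      · rintro ⟨hO, ht⟩
        refine ⟨hO, ?_⟩
        have := hclos O hO v ht
        rw [hv, h.pp] at this
        exact this.resolve_right hu
  rw [Finset.sum_add_distrib] at h1
  omega

/-- Every connected graph with a triangle structure with `N` triangles has a total dominating
set of size at most `N + 2⌊(N+2)/12⌋`. -/
theorem Tri.upper (h : Tri G τ p) (hc : G.Connected) :
    ∃ S : Finset V, (∀ v, ∃ u ∈ S, G.Adj v u) ∧
      S.card ≤ (univ.image τ).card + 2 * (((univ.image τ).card + 2) / 12) := by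
  classical
  set T := univ.image τ with hT
  set N := T.card with hN
  have hmemT : ∀ v, τ v ∈ T := fun v => Finset.mem_image_of_mem _ (Finset.mem_univ _)
  have hNe : Even N := h.even
  let H : SimpleGraph ι :=
    { Adj := fun s t => s ≠ t ∧ ∃ u, τ u = s ∧ τ (p u) = t
      symm := ⟨by
        rintro s t ⟨hne, u, hu, hu'⟩
        exact ⟨hne.symm, p u, hu', by rw [h.pp]; exact hu⟩⟩
      loopless := ⟨fun s hs => hs.1 rfl⟩ }
  have hHadj : ∀ v, H.Adj (τ v) (τ (p v)) := fun v => ⟨(h.ne v).symm, v, rfl, rfl⟩
  obtain ⟨U, m, hU, hUc, hm⟩ := H168DD.tutte_berge H T (2 * ((N + 2) / 12)) (by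
    rw [Nat.even_add]; exact ⟨fun _ => even_two_mul _, fun _ => hNe⟩) (by
    intro A F hA hodd hdisj hsub hclos
    have hclos' : ∀ O ∈ F, ∀ v, τ v ∈ O → τ (p v) ∈ O ∨ τ (p v) ∈ A := by
      intro O hO v hv
      exact hclos O hO _ hv _ (hmemT _) (hHadj v)
    have hc1 := h.count hc A F hA hodd hdisj hsub hclos'
    rw [← hT, ← hN] at hc1
    by_contra hlt
    -- the remainder
    set R := T \ (A ∪ F.biUnion id) with hR
    have hunion : (A ∪ F.biUnion id).card = A.card + ∑ O ∈ F, O.card := by
      rw [Finset.card_union_of_disjoint, Finset.card_biUnion]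
      · rfl
      · intro O hO O' hO' hne; exact hdisj O hO O' hO' hne
      · rw [Finset.disjoint_left]
        intro t ht ht'
        obtain ⟨O, hO, ht'⟩ := Finset.mem_biUnion.1 ht'
        exact (Finset.mem_sdiff.1 (hsub O hO ht')).2 ht
    have hsubU : A ∪ F.biUnion id ⊆ T := by
      intro t ht
      rcases Finset.mem_union.1 ht with ht | ht
      · exact hA ht
      · obtain ⟨O, hO, ht⟩ := Finset.mem_biUnion.1 ht
        exact (Finset.mem_sdiff.1 (hsub O hO ht)).1
    have hRc : R.card + (A.card + ∑ O ∈ F, O.card) = N := by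
      rw [← hunion, hR, Finset.card_sdiff_add_card_eq_card hsubU]
    have hpar : (∑ O ∈ F, O.card) % 2 = F.card % 2 := by
      have : ∀ F' : Finset (Finset ι), F' ⊆ F → (∑ O ∈ F', O.card) % 2 = F'.card % 2 := by
        intro F'
        induction F' using Finset.induction_on with
        | empty => intro _; simp
        | insert O F' hO ih =>
          intro hs
          rw [Finset.sum_insert hO, Finset.card_insert_of_notMem hO]
          have h1 := ih (fun x hx => hs (Finset.mem_insert_of_mem hx))
          have h2 := Nat.odd_iff.1 (hodd O (hs (Finset.mem_insert_self _ _)))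
          omega
      exact this F (Finset.Subset.refl _)
    have hN2 : N % 2 = 0 := Nat.even_iff.1 hNe
    have hRodd : Odd R.card := by
      rw [Nat.odd_iff]
      omega
    have hRne : R.Nonempty := by
      rw [← Finset.card_pos]; exact hRodd.pos
    have hRF : R ∉ F := by
      intro hRF
      obtain ⟨t, ht⟩ := hRne
      have := (Finset.mem_sdiff.1 ht).2
      exact this (Finset.mem_union_right _ (Finset.mem_biUnion.2 ⟨R, hRF, ht⟩))
    have hRO : ∀ O ∈ F, Disjoint R O := by
      intro O hO
      rw [Finset.disjoint_left]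
      intro t ht ht'
      exact (Finset.mem_sdiff.1 ht).2 (Finset.mem_union_right _ (Finset.mem_biUnion.2 ⟨O, hO, ht'⟩))
    have hc2 := h.count hc A (insert R F) hA ?_ ?_ ?_ ?_
    · rw [Finset.card_insert_of_notMem hRF, ← hT, ← hN] at hc2
      omega
    · intro O hO
      rcases Finset.mem_insert.1 hO with rfl | hO
      · exact hRodd
      · exact hodd O hO
    · intro O hO O' hO' hne
      rcases Finset.mem_insert.1 hO with rfl | hO
      · rcases Finset.mem_insert.1 hO' with rfl | hO'
        · exact absurd rfl hne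
        · exact hRO O' hO'
      · rcases Finset.mem_insert.1 hO' with rfl | hO'
        · exact (hRO O hO).symm
        · exact hdisj O hO O' hO' hne
    · intro O hO
      rcases Finset.mem_insert.1 hO with rfl | hO
      · intro t ht
        obtain ⟨h1, h2⟩ := Finset.mem_sdiff.1 ht
        exact Finset.mem_sdiff.2 ⟨h1, fun h3 => h2 (Finset.mem_union_left _ h3)⟩
      · exact hsub O hO
    · intro O hO
      rcases Finset.mem_insert.1 hO with rfl | hO
      · intro v hv
        by_contra hcon
        push Not at hcon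
        obtain ⟨h1, h2⟩ := hcon
        have h3 : τ (p v) ∈ A ∪ F.biUnion id := by
          by_contra h4
          exact h1 (Finset.mem_sdiff.2 ⟨hmemT _, h4⟩)
        rcases Finset.mem_union.1 h3 with h3 | h3
        · exact h2 h3
        · obtain ⟨O, hO, h4⟩ := Finset.mem_biUnion.1 h3
          have h5 := hclos' O hO (p v) h4
          rw [h.pp] at h5
          have h6 := (Finset.mem_sdiff.1 hv).2
          apply h6
          rcases h5 with h5 | h5
          · exact Finset.mem_union_right _ (Finset.mem_biUnion.2 ⟨O, hO, h5⟩)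
          · exact Finset.mem_union_left _ h5
      · exact hclos' O hO)
  -- the choice of one vertex in each matched triangle
  have hy : ∃ y : ι → V, ∀ t ∈ T \ U, τ (y t) = t ∧ y (m t) = p (y t) := by
    have hex : ∀ s : Finset ι, ∃ u : V, (∃ u', ({τ u', τ (p u')} : Finset ι) = s) →
        ({τ u, τ (p u)} : Finset ι) = s := by
      intro s
      by_cases hs : ∃ u', ({τ u', τ (p u')} : Finset ι) = s
      · obtain ⟨u, hu⟩ := hs
        exact ⟨u, fun _ => hu⟩
      · have := hc.nonempty
        exact ⟨Classical.arbitrary V, fun h => absurd h hs⟩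
    choose c hcs using hex
    refine ⟨fun t => if τ (c {t, m t}) = t then c {t, m t} else p (c {t, m t}), ?_⟩
    intro t ht
    obtain ⟨hm1, hm2, hm3⟩ := hm t ht
    obtain ⟨hne, u0, hu0, hu0'⟩ := hm3
    have h1 := hcs {t, m t} ⟨u0, by rw [hu0, hu0']⟩
    have hswap : ({m t, t} : Finset ι) = {t, m t} := Finset.pair_comm _ _
    simp only [hm2, hswap]
    set u := c {t, m t} with hu
    have hu1 : τ u = t ∨ τ u = m t := by
      have : τ u ∈ ({t, m t} : Finset ι) := by rw [← h1]; simp
      simpa using this
    have hu2 : τ (p u) = t ∨ τ (p u) = m t := by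
      have : τ (p u) ∈ ({t, m t} : Finset ι) := by rw [← h1]; simp
      simpa using this
    have hu3 := h.ne u
    by_cases hcase : τ u = t
    · rw [if_pos hcase]
      refine ⟨hcase, ?_⟩
      rw [if_neg]
      rw [hcase]; exact hne
    · have hcase' := hu1.resolve_left hcase
      rw [if_neg hcase]
      refine ⟨?_, ?_⟩
      · rcases hu2 with h2 | h2
        · exact h2
        · exact absurd (h2.trans hcase'.symm) hu3
      · rw [if_pos hcase', h.pp]
  obtain ⟨y, hy⟩ := hy
  have hab : ∀ t ∈ U, ∃ a b : V, a ≠ b ∧ τ a = t ∧ τ b = t := by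
    intro t ht
    obtain ⟨v, _, rfl⟩ := Finset.mem_image.1 (hU ht)
    have h1 : 1 < (univ.filter (fun u => τ u = τ v)).card := by rw [h.fib]; decide
    obtain ⟨a, ha, b, hb, hne⟩ := Finset.one_lt_card.1 h1
    exact ⟨a, b, hne, (Finset.mem_filter.1 ha).2, (Finset.mem_filter.1 hb).2⟩
  have := hc.nonempty
  choose! a b hab using hab
  refine ⟨(T \ U).image y ∪ (U.image a ∪ U.image b), ?_, ?_⟩
  · intro v
    by_cases hvU : τ v ∈ U
    · obtain ⟨hne, h1, h2⟩ := hab _ hvU
      by_cases hva : v = a (τ v)
      · refine ⟨b (τ v), ?_, ?_⟩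
        · simp only [Finset.mem_union, Finset.mem_image]
          exact Or.inr (Or.inr ⟨_, hvU, rfl⟩)
        · rw [h.adj]
          left
          exact ⟨by rw [← hva] at hne; exact hne, h2.symm⟩
      · refine ⟨a (τ v), ?_, ?_⟩
        · simp only [Finset.mem_union, Finset.mem_image]
          exact Or.inr (Or.inl ⟨_, hvU, rfl⟩)
        · rw [h.adj]
          left
          exact ⟨hva, h1.symm⟩
    · have hvT : τ v ∈ T \ U := Finset.mem_sdiff.2 ⟨hmemT v, hvU⟩
      obtain ⟨h1, h2⟩ := hy _ hvT
      by_cases hvy : v = y (τ v)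
      · refine ⟨p v, ?_, ?_⟩
        · simp only [Finset.mem_union, Finset.mem_image]
          left
          refine ⟨m (τ v), (hm _ hvT).1, ?_⟩
          rw [h2, ← hvy]
        · rw [h.adj]; right; rfl
      · refine ⟨y (τ v), ?_, ?_⟩
        · simp only [Finset.mem_union, Finset.mem_image]
          left
          exact ⟨_, hvT, rfl⟩
        · rw [h.adj]
          left
          exact ⟨hvy, h1.symm⟩
  · have h1 : ((T \ U).image y).card ≤ (T \ U).card := Finset.card_image_le
    have h2 : (U.image a).card ≤ U.card := Finset.card_image_le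
    have h3 : (U.image b).card ≤ U.card := Finset.card_image_le
    have h4 := Finset.card_union_le ((T \ U).image y) (U.image a ∪ U.image b)
    have h5 := Finset.card_union_le (U.image a) (U.image b)
    have h6 := Finset.card_sdiff_add_card_eq_card hU
    omega

end R45.CFD
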