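import Pool.Agent.R45.CFD1

/-!
Connected claw-free diamond-free cubic graphs have a triangle structure.
-/

namespace R45.CFD

open SimpleGraph Finset

set_option linter.unusedSectionVars false

/-- no induced `K_{1,3}` -/
def ClawFree {V : Type*} (G : SimpleGraph V) : Prop :=
  IsEmpty (completeBipartiteGraph (Fin 1) (Fin 3) ↪g G)

/-- no induced `K_4 - e` -/
def DiamondFree {V : Type*} (G : SimpleGraph V) : Prop :=
  IsEmpty ((⊤ : SimpleGraph (Fin 4)).deleteEdges {s(0, 1)} ↪g G)

/-- `G` is cubic -/
def Cubic {V : Type*} (G : SimpleGraph V) : Prop := ∀ v, (G.neighborSet v).ncard = 3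

/-- the class `𝒞` -/
def InC {V : Type*} (G : SimpleGraph V) : Prop :=
  G.Connected ∧ Cubic G ∧ ClawFree G ∧ DiamondFree G

section
variable {V : Type*} {G : SimpleGraph V}

lemma ClawFree.elim (h : ClawFree G) {v a b c : V} (hab : a ≠ b) (hac : a ≠ c) (hbc : b ≠ c)
    (ha : G.Adj v a) (hb : G.Adj v b) (hc : G.Adj v c) : G.Adj a b ∨ G.Adj a c ∨ G.Adj b c := by
  by_contra hcon
  push Not at hcon
  obtain ⟨h1, h2, h3⟩ := hcon
  let f : Fin 1 ⊕ Fin 3 → V := fun x => match x with
    | Sum.inl _ => v
    | Sum.inr i => if i = 0 then a else if i = 1 then b else c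
  have hinj : Function.Injective f := by
    rintro (x | x) (y | y) hxy
    · congr 1; exact Subsingleton.elim _ _
    · exfalso
      fin_cases y <;> simp [f] at hxy
      · exact G.ne_of_adj ha hxy
      · exact G.ne_of_adj hb hxy
      · exact G.ne_of_adj hc hxy
    · exfalso
      fin_cases x <;> simp [f] at hxy
      · exact G.ne_of_adj ha hxy.symm
      · exact G.ne_of_adj hb hxy.symm
      · exact G.ne_of_adj hc hxy.symm
    · congr 1
      fin_cases x <;> fin_cases y <;> simp [f] at hxy ⊢
      · exact hab hxy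
      · exact hac hxy
      · exact hab hxy.symm
      · exact hbc hxy
      · exact hac hxy.symm
      · exact hbc hxy.symm
  apply h.false
  refine ⟨⟨f, hinj⟩, ?_⟩
  rintro (x | x) (y | y)
  · simp [f]
  · fin_cases y <;> simp [f, ha, hb, hc]
  · fin_cases x <;> simp [f, ha.symm, hb.symm, hc.symm]
  · fin_cases x <;> fin_cases y <;>
      simp [f, h1, h2, h3, G.adj_comm b a, G.adj_comm c a, G.adj_comm c b]

lemma DiamondFree.elim (h : DiamondFree G) {a b c d : V} (hab : a ≠ b) (hnab : ¬ G.Adj a b)
    (hac : G.Adj a c) (had : G.Adj a d) (hbc : G.Adj b c) (hbd : G.Adj b d) (hcd : G.Adj c d) :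
    False := by
  let f : Fin 4 → V := fun i => if i = 0 then a else if i = 1 then b else if i = 2 then c else d
  have e1 := G.ne_of_adj hac
  have e2 := G.ne_of_adj had
  have e3 := G.ne_of_adj hbc
  have e4 := G.ne_of_adj hbd
  have e5 := G.ne_of_adj hcd
  have hinj : Function.Injective f := by
    intro x y hxy
    fin_cases x <;> fin_cases y <;> simp [f] at hxy ⊢ <;> first
      | exact hab hxy | exact hab hxy.symm | exact e1 hxy | exact e1 hxy.symm | exact e2 hxy
      | exact e2 hxy.symm | exact e3 hxy | exact e3 hxy.symm | exact e4 hxy | exact e4 hxy.symm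
      | exact e5 hxy | exact e5 hxy.symm
  apply h.false
  refine ⟨⟨f, hinj⟩, ?_⟩
  intro x y
  fin_cases x <;> fin_cases y <;>
    simp [f, hac, had, hbc, hbd, hcd, hac.symm, had.symm, hbc.symm, hbd.symm, hcd.symm, hnab,
      G.adj_comm b a, SimpleGraph.deleteEdges_adj]

end

section
variable {V : Type*} [Fintype V] [DecidableEq V] {G : SimpleGraph V}

/-- local structure -/
lemma InC.local_ (h : InC G) (hV : 5 ≤ Fintype.card V) (v : V) :
    ∃ a b c, a ≠ b ∧ a ≠ c ∧ b ≠ c ∧ (∀ x, G.Adj v x ↔ x = a ∨ x = b ∨ x = c) ∧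
      G.Adj a b ∧ ¬ G.Adj a c ∧ ¬ G.Adj b c := by
  obtain ⟨hconn, hcub, hclaw, hdia⟩ := h
  obtain ⟨a, b, c, hab, hac, hbc, hN⟩ := Set.ncard_eq_three.1 (hcub v)
  have hN' : ∀ x, G.Adj v x ↔ x = a ∨ x = b ∨ x = c := by
    intro x
    rw [← SimpleGraph.mem_neighborSet, hN]; simp
  have ha := (hN' a).2 (Or.inl rfl)
  have hb := (hN' b).2 (Or.inr (Or.inl rfl))
  have hc := (hN' c).2 (Or.inr (Or.inr rfl))
  -- exclude K4
  have hK4 : ¬ (G.Adj a b ∧ G.Adj a c ∧ G.Adj b c) := by
    rintro ⟨h1, h2, h3⟩
    have hcl : ∀ x y z w : V, x ≠ y → x ≠ z → y ≠ z → G.Adj w x → G.Adj w y → G.Adj w z →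
        ∀ u, G.Adj w u → u = x ∨ u = y ∨ u = z := by
      intro x y z w hxy hxz hyz hx hy hz u hu
      by_contra hcon
      push Not at hcon
      obtain ⟨n1, n2, n3⟩ := hcon
      have : ({u, x, y, z} : Set V) ⊆ G.neighborSet w := by
        intro t ht
        rcases ht with rfl | rfl | rfl | rfl
        · exact hu
        · exact hx
        · exact hy
        · exact hz
      have h5 := Set.ncard_le_ncard this (Set.toFinite _)
      rw [hcub w] at h5
      have h6 : ({u, x, y, z} : Set V).ncard = 4 := by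
        rw [Set.ncard_insert_of_notMem, Set.ncard_insert_of_notMem, Set.ncard_pair hyz]
        · simp [hxy, hxz]
        · simp [n1, n2, n3]
      omega
    have hva := G.ne_of_adj ha
    have hvb := G.ne_of_adj hb
    have hvc := G.ne_of_adj hc
    have hclosed : ∀ x y, G.Adj x y → (x = v ∨ x = a ∨ x = b ∨ x = c) →
        (y = v ∨ y = a ∨ y = b ∨ y = c) := by
      rintro x y hxy (rfl | rfl | rfl | rfl)
      · exact Or.inr ((hN' y).1 hxy)
      · rcases hcl v b c x hvb hvc hbc ha.symm h1 h2 y hxy with e | e | e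
        · exact Or.inl e
        · exact Or.inr (Or.inr (Or.inl e))
        · exact Or.inr (Or.inr (Or.inr e))
      · rcases hcl v a c x hva hvc hac hb.symm h1.symm h3 y hxy with e | e | e
        · exact Or.inl e
        · exact Or.inr (Or.inl e)
        · exact Or.inr (Or.inr (Or.inr e))
      · rcases hcl v a b x hva hvb hab hc.symm h2.symm h3.symm y hxy with e | e | e
        · exact Or.inl e
        · exact Or.inr (Or.inl e)
        · exact Or.inr (Or.inr (Or.inl e))
    have hall : ∀ x, x = v ∨ x = a ∨ x = b ∨ x = c := by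
      intro x
      obtain ⟨w⟩ := hconn.preconnected v x
      have : ∀ s t : V, G.Walk s t → (s = v ∨ s = a ∨ s = b ∨ s = c) →
          (t = v ∨ t = a ∨ t = b ∨ t = c) := by
        intro s t w
        induction w with
        | nil => exact id
        | cons hadj _ ih => exact fun hs => ih (hclosed _ _ hadj hs)
      exact this v x w (Or.inl rfl)
    have : (univ : Finset V) ⊆ {v, a, b, c} := by
      intro x _
      simpa using hall x
    have h7 := Finset.card_le_card this
    have h8 : ({v, a, b, c} : Finset V).card ≤ 4 := Finset.card_le_four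
    rw [Finset.card_univ] at h7
    omega
  by_cases h1 : G.Adj a b
  · by_cases h2 : G.Adj a c
    · have h3 : ¬ G.Adj b c := fun h3 => hK4 ⟨h1, h2, h3⟩
      exact (hdia.elim hbc h3 h1.symm hb.symm h2.symm hc.symm ha.symm).elim
    · by_cases h3 : G.Adj b c
      · exact (hdia.elim hac h2 h1 ha.symm h3.symm hc.symm hb.symm).elim
      · exact ⟨a, b, c, hab, hac, hbc, hN', h1, h2, h3⟩
  · by_cases h2 : G.Adj a c
    · by_cases h3 : G.Adj b c
      · exact (hdia.elim hab h1 h2 ha.symm h3 hb.symm hc.symm).elim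
      · refine ⟨a, c, b, hac, hab, hbc.symm, ?_, h2, h1, fun h => h3 h.symm⟩
        intro x; rw [hN']; tauto
    · by_cases h3 : G.Adj b c
      · refine ⟨b, c, a, hbc, hab.symm, hac.symm, ?_, h3, fun h => h1 h.symm, fun h => h2 h.symm⟩
        intro x; rw [hN']; tauto
      · rcases hclaw.elim hab hac hbc ha hb hc with h | h | h
        · exact absurd h h1
        · exact absurd h h2
        · exact absurd h h3

/-- A graph in `𝒞` of order at least 5 has a triangle structure. -/
theorem InC.tri (h : InC G) (hV : 5 ≤ Fintype.card V) :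
    ∃ (τ : V → Finset V) (p : V → V), Tri G τ p := by
  classical
  have hloc := h.local_ hV
  choose a b c hab hac hbc hN hadj hnac hnbc using hloc
  -- uniqueness of the local structure
  have hva : ∀ v, G.Adj v (a v) := fun v => (hN v _).2 (Or.inl rfl)
  have hvb : ∀ v, G.Adj v (b v) := fun v => (hN v _).2 (Or.inr (Or.inl rfl))
  have hvc : ∀ v, G.Adj v (c v) := fun v => (hN v _).2 (Or.inr (Or.inr rfl))
  -- two adjacent neighbours of v are a v, b v
  have huniq : ∀ v x y, G.Adj v x → G.Adj v y → G.Adj x y →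
      (x = a v ∧ y = b v) ∨ (x = b v ∧ y = a v) := by
    intro v x y hx hy hxy
    have hne := G.ne_of_adj hxy
    rcases (hN v x).1 hx with rfl | rfl | rfl <;> rcases (hN v y).1 hy with rfl | rfl | rfl
    · exact absurd rfl hne
    · exact Or.inl ⟨rfl, rfl⟩
    · exact absurd hxy (hnac v)
    · exact Or.inr ⟨rfl, rfl⟩
    · exact absurd rfl hne
    · exact absurd hxy (hnbc v)
    · exact absurd hxy.symm (hnac v)
    · exact absurd hxy.symm (hnbc v)
    · exact absurd rfl hne
  let τ : V → Finset V := fun v => {v, a v, b v}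
  have hτmem : ∀ v x, x ∈ τ v ↔ x = v ∨ x = a v ∨ x = b v := by
    intro v x; simp [τ]
  have hτa : ∀ v, τ (a v) = τ v := by
    intro v
    ext x
    rw [hτmem, hτmem]
    rcases huniq (a v) v (b v) (hva v).symm (hadj v) (hvb v) with ⟨h1, h2⟩ | ⟨h1, h2⟩
    · rw [← h1, ← h2]; tauto
    · rw [← h1, ← h2]; tauto
  have hτb : ∀ v, τ (b v) = τ v := by
    intro v
    ext x
    rw [hτmem, hτmem]
    rcases huniq (b v) v (a v) (hvb v).symm (hadj v).symm (hva v) with ⟨h1, h2⟩ | ⟨h1, h2⟩
    · rw [← h1, ← h2]; tauto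
    · rw [← h1, ← h2]; tauto
  have hτiff : ∀ v x, τ x = τ v ↔ x ∈ τ v := by
    intro v x
    constructor
    · intro e; rw [← e, hτmem]; exact Or.inl rfl
    · intro hx
      rcases (hτmem v x).1 hx with rfl | rfl | rfl
      · rfl
      · exact hτa v
      · exact hτb v
  have hcc : ∀ v, c v ∉ τ v := by
    intro v hx
    rcases (hτmem v _).1 hx with e | e | e
    · exact G.ne_of_adj (hvc v) e.symm
    · exact hac v e.symm
    · exact hbc v e.symm
  have hp : ∀ v, c (c v) = v := by
    intro v
    have h1 := (hN (c v) v).1 (hvc v).symm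
    have h2 : v ∉ τ (c v) := by
      intro hv
      rw [← hτiff] at hv
      exact hcc v ((hτiff v (c v)).1 hv.symm)
    rw [hτmem] at h2
    rcases h1 with e | e | e
    · exact absurd (Or.inr (Or.inl e)) h2
    · exact absurd (Or.inr (Or.inr e)) h2
    · exact e.symm
  refine ⟨τ, c, ⟨hp, ?_, ?_, ?_⟩⟩
  · intro v e
    exact hcc v ((hτiff v (c v)).1 e)
  · intro v
    have : univ.filter (fun u => τ u = τ v) = {v, a v, b v} := by
      ext x
      rw [Finset.mem_filter, hτiff, hτmem]
      simp
    rw [this]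
    rw [Finset.card_insert_of_notMem, Finset.card_pair (hab v)]
    simp only [Finset.mem_insert, Finset.mem_singleton, not_or]
    exact ⟨G.ne_of_adj (hva v), G.ne_of_adj (hvb v)⟩
  · intro u v
    rw [hN, eq_comm (a := τ u), hτiff, hτmem]
    constructor
    · rintro (rfl | rfl | rfl)
      · exact Or.inl ⟨G.ne_of_adj (hva u), Or.inr (Or.inl rfl)⟩
      · exact Or.inl ⟨G.ne_of_adj (hvb u), Or.inr (Or.inr rfl)⟩
      · exact Or.inr rfl
    · rintro (⟨h1, h2⟩ | h1)
      · rcases h2 with e | e | e
        · exact absurd e.symm h1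
        · exact Or.inl e
        · exact Or.inr (Or.inl e)
      · exact Or.inr (Or.inr h1)

end

/-! converse: a graph with a triangle structure is claw-free, diamond-free and cubic -/
section
variable {V ι : Type*} [Fintype V] [DecidableEq V] [DecidableEq ι]
variable {G : SimpleGraph V} {τ : V → ι} {p : V → V}

lemma Tri.clawFree (h : Tri G τ p) : ClawFree G := by
  refine ⟨fun f => ?_⟩
  have hadj : ∀ i : Fin 3, G.Adj (f (Sum.inl 0)) (f (Sum.inr i)) := by
    intro i
    rw [f.map_adj_iff]
    simp
  have hnadj : ∀ i j : Fin 3, ¬ G.Adj (f (Sum.inr i)) (f (Sum.inr j)) := by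
    intro i j
    rw [f.map_adj_iff]
    simp
  have hne : ∀ i j : Fin 3, i ≠ j → f (Sum.inr i) ≠ f (Sum.inr j) := by
    intro i j hij e
    exact hij (Sum.inr_injective (f.injective e))
  have key : ∀ i j : Fin 3, i ≠ j → τ (f (Sum.inl 0)) = τ (f (Sum.inr i)) →
      τ (f (Sum.inl 0)) = τ (f (Sum.inr j)) → False := by
    intro i j hij h1 h2
    apply hnadj i j
    rw [h.adj]
    exact Or.inl ⟨hne i j hij, h1.symm.trans h2⟩
  have h0 := (h.adj _ _).1 (hadj 0)
  have h1 := (h.adj _ _).1 (hadj 1)
  have h2 := (h.adj _ _).1 (hadj 2)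
  rcases h0 with h0 | h0
  · rcases h1 with h1 | h1
    · exact key 0 1 (by decide) h0.2 h1.2
    · rcases h2 with h2 | h2
      · exact key 0 2 (by decide) h0.2 h2.2
      · exact hne 1 2 (by decide) (h1.trans h2.symm)
  · rcases h1 with h1 | h1
    · rcases h2 with h2 | h2
      · exact key 1 2 (by decide) h1.2 h2.2
      · exact hne 0 2 (by decide) (h0.trans h2.symm)
    · exact hne 0 1 (by decide) (h0.trans h1.symm)

/-- every triangle of `G` lies in a fibre of `τ` -/
lemma Tri.triangle (h : Tri G τ p) {a b c : V} (hab : G.Adj a b) (hac : G.Adj a c)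
    (hbc : G.Adj b c) : τ a = τ b := by
  rcases (h.adj a b).1 hab with h1 | h1
  · exact h1.2
  · exfalso
    have h2 : τ a = τ c := by
      rcases (h.adj a c).1 hac with h2 | h2
      · exact h2.2
      · exact absurd (h1.trans h2.symm) (G.ne_of_adj hbc)
    have h3 : τ b = τ c := by
      rcases (h.adj b c).1 hbc with h3 | h3
      · exact h3.2
      · rw [h1, h.pp] at h3
        exact absurd h3.symm (G.ne_of_adj hac)
    apply h.ne a
    rw [← h1, h3, h2]

lemma Tri.diamondFree (h : Tri G τ p) : DiamondFree G := by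
  refine ⟨fun f => ?_⟩
  have hadj : ∀ i j : Fin 4, i ≠ j → s(i, j) ≠ s(0, 1) → G.Adj (f i) (f j) := by
    intro i j hij hne
    rw [f.map_adj_iff, SimpleGraph.deleteEdges_adj]
    exact ⟨hij, hne⟩
  have hnadj : ¬ G.Adj (f 0) (f 1) := by
    rw [f.map_adj_iff, SimpleGraph.deleteEdges_adj]
    simp
  have a02 := hadj 0 2 (by decide) (by decide)
  have a03 := hadj 0 3 (by decide) (by decide)
  have a12 := hadj 1 2 (by decide) (by decide)
  have a13 := hadj 1 3 (by decide) (by decide)
  have a23 := hadj 2 3 (by decide) (by decide)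
  have h1 := h.triangle a02 a03 a23
  have h2 := h.triangle a12 a13 a23
  apply hnadj
  rw [h.adj]
  left
  refine ⟨fun e => ?_, h1.trans h2.symm⟩
  have := f.injective e
  exact absurd this (by decide)

lemma Tri.cubic (h : Tri G τ p) : Cubic G := by
  intro v
  have h1 : G.neighborSet v = ((insert (p v) ((univ.filter (fun u => τ u = τ v)).erase v) :
      Finset V) : Set V) := by
    ext x
    simp only [SimpleGraph.mem_neighborSet, h.adj, Finset.coe_insert, Set.mem_insert_iff,
      Finset.mem_coe, Finset.mem_erase, Finset.mem_filter, Finset.mem_univ, true_and]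
    constructor
    · rintro (⟨h1, h2⟩ | h1)
      · exact Or.inr ⟨h1.symm, h2.symm⟩
      · exact Or.inl h1
    · rintro (h1 | ⟨h1, h2⟩)
      · exact Or.inr h1
      · exact Or.inl ⟨h1.symm, h2.symm⟩
  rw [h1, Set.ncard_coe_finset, Finset.card_insert_of_notMem, Finset.card_erase_of_mem, h.fib]
  · simp
  · simp only [Finset.mem_erase, Finset.mem_filter, Finset.mem_univ, true_and, not_and]
    intro _; exact h.ne v

lemma Tri.inC (h : Tri G τ p) (hc : G.Connected) : InC G :=
  ⟨hc, h.cubic, h.clawFree, h.diamondFree⟩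

end

end R45.CFD
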