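import Pool.Agent.R45.CFD2

/-!
Gadgets: open graphs with triangle structure, and lower bounds for total domination.
-/

namespace R45.CFD

open SimpleGraph Finset

set_option linter.unusedSectionVars false

/-- the graph on `ι × Fin 3`: each `{t} × Fin 3` is a triangle, and `x` is joined to `p x`
(when `p x ≠ x`) -/
def gr {ι : Type} (p : ι × Fin 3 → ι × Fin 3) : SimpleGraph (ι × Fin 3) where
  Adj u v := u ≠ v ∧ (u.1 = v.1 ∨ v = p u ∨ u = p v)
  symm := ⟨fun u v h => ⟨h.1.symm, by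
    rcases h.2 with h | h | h
    · exact Or.inl h.symm
    · exact Or.inr (Or.inr h)
    · exact Or.inr (Or.inl h)⟩⟩
  loopless := ⟨fun u h => h.1 rfl⟩

structure Op {ι : Type} (p : ι × Fin 3 → ι × Fin 3) : Prop where
  pp : ∀ x, p (p x) = x
  ne : ∀ x, p x = x ∨ (p x).1 ≠ x.1
  conn : (gr p).Connected

lemma gr_adj {ι : Type} {p : ι × Fin 3 → ι × Fin 3} {u v : ι × Fin 3} :
    (gr p).Adj u v ↔ u ≠ v ∧ (u.1 = v.1 ∨ v = p u ∨ u = p v) := Iff.rfl

/-- linking two open graphs at the ports `x1`, `x2` -/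
def link {ι κ : Type} [DecidableEq ι] [DecidableEq κ] (p : ι × Fin 3 → ι × Fin 3)
    (q : κ × Fin 3 → κ × Fin 3) (x : ι × Fin 3) (y : κ × Fin 3) :
    (ι ⊕ κ) × Fin 3 → (ι ⊕ κ) × Fin 3
  | (Sum.inl t, i) => if (t, i) = x then (Sum.inr y.1, y.2) else
      (Sum.inl (p (t, i)).1, (p (t, i)).2)
  | (Sum.inr t, i) => if (t, i) = y then (Sum.inl x.1, x.2) else
      (Sum.inr (q (t, i)).1, (q (t, i)).2)

def Lf {ι : Type} (κ : Type) (x : ι × Fin 3) : (ι ⊕ κ) × Fin 3 := (Sum.inl x.1, x.2)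
def Rt (ι : Type) {κ : Type} (x : κ × Fin 3) : (ι ⊕ κ) × Fin 3 := (Sum.inr x.1, x.2)

section
variable {ι κ : Type} [DecidableEq ι] [DecidableEq κ] {p : ι × Fin 3 → ι × Fin 3}
    {q : κ × Fin 3 → κ × Fin 3} {x : ι × Fin 3} {y : κ × Fin 3}

lemma Lf_inj {a b : ι × Fin 3} : Lf κ a = Lf κ b ↔ a = b := by
  constructor
  · intro h
    simp only [Lf, Prod.mk.injEq, Sum.inl.injEq] at h
    exact Prod.ext h.1 h.2
  · rintro rfl; rfl

lemma Rt_inj {a b : κ × Fin 3} : Rt ι a = Rt ι b ↔ a = b := by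
  constructor
  · intro h
    simp only [Rt, Prod.mk.injEq, Sum.inr.injEq] at h
    exact Prod.ext h.1 h.2
  · rintro rfl; rfl

lemma Lf_ne_Rt {a : ι × Fin 3} {b : κ × Fin 3} : Lf κ a ≠ Rt ι b := by
  intro h
  simp [Lf, Rt] at h

lemma Rt_ne_Lf {a : ι × Fin 3} {b : κ × Fin 3} : Rt ι b ≠ Lf κ a := by
  intro h
  simp [Lf, Rt] at h

lemma link_Lf (a : ι × Fin 3) : link p q x y (Lf κ a) = if a = x then Rt ι y else Lf κ (p a) := rfl
lemma link_Rt (b : κ × Fin 3) : link p q x y (Rt ι b) = if b = y then Lf κ x else Rt ι (q b) := rfl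

lemma Lf_or_Rt (v : (ι ⊕ κ) × Fin 3) : (∃ a, v = Lf κ a) ∨ (∃ b, v = Rt ι b) := by
  rcases v with ⟨t | t, i⟩
  · exact Or.inl ⟨(t, i), rfl⟩
  · exact Or.inr ⟨(t, i), rfl⟩

lemma Op.inj {ι : Type} {p : ι × Fin 3 → ι × Fin 3} (h : Op p) : Function.Injective p := by
  intro a b e
  rw [← h.pp a, e, h.pp b]

lemma link_pp (hp : ∀ x, p (p x) = x) (hq : ∀ x, q (q x) = x) (hx : p x = x) (hy : q y = y)
    (v : (ι ⊕ κ) × Fin 3) : link p q x y (link p q x y v) = v := by
  rcases Lf_or_Rt v with ⟨a, rfl⟩ | ⟨b, rfl⟩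
  · rw [link_Lf]
    split_ifs with h
    · rw [link_Rt, if_pos rfl, h]
    · rw [link_Lf, if_neg, hp]
      intro e
      apply h
      rw [← hp a, e, hx]
  · rw [link_Rt]
    split_ifs with h
    · rw [link_Lf, if_pos rfl, h]
    · rw [link_Rt, if_neg, hq]
      intro e
      apply h
      rw [← hq b, e, hy]

lemma link_op (hp : Op p) (hq : Op q) (hx : p x = x) (hy : q y = y) : Op (link p q x y) := by
  refine ⟨link_pp hp.pp hq.pp hx hy, ?_, ?_⟩
  · intro v
    rcases Lf_or_Rt v with ⟨a, rfl⟩ | ⟨b, rfl⟩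
    · rw [link_Lf]
      split_ifs with h
      · right; simp [Lf, Rt]
      · rcases hp.ne a with h1 | h1
        · left; rw [h1]
        · right
          simp only [Lf]
          intro e
          exact h1 (Sum.inl_injective e)
    · rw [link_Rt]
      split_ifs with h
      · right; simp [Lf, Rt]
      · rcases hq.ne b with h1 | h1
        · left; rw [h1]
        · right
          simp only [Rt]
          intro e
          exact h1 (Sum.inr_injective e)
  · have hLL : ∀ a b, (gr p).Reachable a b → (gr (link p q x y)).Reachable (Lf κ a) (Lf κ b) := by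
      rintro a b ⟨w⟩
      induction w with
      | nil => exact SimpleGraph.Reachable.refl _
      | @cons u v _ hadj _ ih =>
        refine SimpleGraph.Reachable.trans (SimpleGraph.Adj.reachable ?_) ih
        obtain ⟨h1, h2⟩ := hadj
        refine ⟨fun e => h1 (Lf_inj.1 e), ?_⟩
        rcases h2 with h2 | h2 | h2
        · left; simp [Lf, h2]
        · right; left
          rw [link_Lf, if_neg, h2]
          rintro rfl
          exact h1 (h2.trans hx).symm
        · right; right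
          rw [link_Lf, if_neg, h2]
          rintro rfl
          exact h1 (h2.trans hx)
    have hRR : ∀ a b, (gr q).Reachable a b → (gr (link p q x y)).Reachable (Rt ι a) (Rt ι b) := by
      rintro a b ⟨w⟩
      induction w with
      | nil => exact SimpleGraph.Reachable.refl _
      | @cons u v _ hadj _ ih =>
        refine SimpleGraph.Reachable.trans (SimpleGraph.Adj.reachable ?_) ih
        obtain ⟨h1, h2⟩ := hadj
        refine ⟨fun e => h1 (Rt_inj.1 e), ?_⟩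
        rcases h2 with h2 | h2 | h2
        · left; simp [Rt, h2]
        · right; left
          rw [link_Rt, if_neg, h2]
          rintro rfl
          exact h1 (h2.trans hy).symm
        · right; right
          rw [link_Rt, if_neg, h2]
          rintro rfl
          exact h1 (h2.trans hy)
    have hLR : (gr (link p q x y)).Adj (Lf κ x) (Rt ι y) :=
      ⟨Lf_ne_Rt, Or.inr (Or.inl (by rw [link_Lf, if_pos rfl]))⟩
    have hroot : ∀ v, (gr (link p q x y)).Reachable (Lf κ x) v := by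
      intro v
      rcases Lf_or_Rt v with ⟨a, rfl⟩ | ⟨b, rfl⟩
      · exact hLL _ _ (hp.conn.preconnected _ _)
      · exact hLR.reachable.trans (hRR _ _ (hq.conn.preconnected _ _))
    have : Nonempty ((ι ⊕ κ) × Fin 3) := ⟨Lf κ x⟩
    exact ⟨fun u v => (hroot u).symm.trans (hroot v)⟩

lemma link_fix (v : (ι ⊕ κ) × Fin 3) :
    link p q x y v = v ↔ (∃ a, v = Lf κ a ∧ a ≠ x ∧ p a = a) ∨ (∃ b, v = Rt ι b ∧ b ≠ y ∧ q b = b) := by
  constructor
  · intro h
    rcases Lf_or_Rt v with ⟨a, rfl⟩ | ⟨b, rfl⟩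
    · rw [link_Lf] at h
      split_ifs at h with h1
      · exact absurd h Rt_ne_Lf
      · exact Or.inl ⟨a, rfl, h1, Lf_inj.1 h⟩
    · rw [link_Rt] at h
      split_ifs at h with h1
      · exact absurd h Lf_ne_Rt
      · exact Or.inr ⟨b, rfl, h1, Rt_inj.1 h⟩
  · rintro (⟨a, rfl, h1, h2⟩ | ⟨b, rfl, h1, h2⟩)
    · rw [link_Lf, if_neg h1, h2]
    · rw [link_Rt, if_neg h1, h2]

lemma link_adj_LL {a b : ι × Fin 3} (h : (gr (link p q x y)).Adj (Lf κ a) (Lf κ b)) :
    (gr p).Adj a b := by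
  obtain ⟨h1, h2⟩ := h
  refine ⟨fun e => h1 (by rw [e]), ?_⟩
  rcases h2 with h2 | h2 | h2
  · left; exact Sum.inl_injective h2
  · rw [link_Lf] at h2
    split_ifs at h2 with h3
    · exact absurd h2 Lf_ne_Rt
    · right; left; exact Lf_inj.1 h2
  · rw [link_Lf] at h2
    split_ifs at h2 with h3
    · exact absurd h2 Lf_ne_Rt
    · right; right; exact Lf_inj.1 h2

lemma link_adj_RR {a b : κ × Fin 3} (h : (gr (link p q x y)).Adj (Rt ι a) (Rt ι b)) :
    (gr q).Adj a b := by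
  obtain ⟨h1, h2⟩ := h
  refine ⟨fun e => h1 (by rw [e]), ?_⟩
  rcases h2 with h2 | h2 | h2
  · left; exact Sum.inr_injective h2
  · rw [link_Rt] at h2
    split_ifs at h2 with h3
    · exact absurd h2 Rt_ne_Lf
    · right; left; exact Rt_inj.1 h2
  · rw [link_Rt] at h2
    split_ifs at h2 with h3
    · exact absurd h2 Rt_ne_Lf
    · right; right; exact Rt_inj.1 h2

lemma link_adj_LR {a : ι × Fin 3} {b : κ × Fin 3}
    (h : (gr (link p q x y)).Adj (Lf κ a) (Rt ι b)) : a = x ∧ b = y := by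
  obtain ⟨h1, h2⟩ := h
  rcases h2 with h2 | h2 | h2
  · simp [Lf, Rt] at h2
  · rw [link_Lf] at h2
    split_ifs at h2 with h3
    · exact ⟨h3, Rt_inj.1 h2⟩
    · exact absurd h2 Rt_ne_Lf
  · rw [link_Rt] at h2
    split_ifs at h2 with h3
    · exact ⟨Lf_inj.1 h2, h3⟩
    · exact absurd h2 Lf_ne_Rt

variable [Fintype ι] [Fintype κ]

/-- the part of `S` in the left summand -/
def SL (S : Finset ((ι ⊕ κ) × Fin 3)) : Finset (ι × Fin 3) := univ.filter (fun a => Lf κ a ∈ S)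
def SR (S : Finset ((ι ⊕ κ) × Fin 3)) : Finset (κ × Fin 3) := univ.filter (fun b => Rt ι b ∈ S)

lemma mem_SL {S : Finset ((ι ⊕ κ) × Fin 3)} {a : ι × Fin 3} : a ∈ SL S ↔ Lf κ a ∈ S := by
  simp [SL]
lemma mem_SR {S : Finset ((ι ⊕ κ) × Fin 3)} {b : κ × Fin 3} : b ∈ SR S ↔ Rt ι b ∈ S := by
  simp [SR]

lemma card_S (S : Finset ((ι ⊕ κ) × Fin 3)) : S.card = (SL S).card + (SR S).card := by
  have h1 : S = (SL S).image (Lf κ) ∪ (SR S).image (Rt ι) := by
    ext v
    simp only [Finset.mem_union, Finset.mem_image, mem_SL, mem_SR]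
    constructor
    · intro hv
      rcases Lf_or_Rt v with ⟨a, rfl⟩ | ⟨b, rfl⟩
      · exact Or.inl ⟨a, hv, rfl⟩
      · exact Or.inr ⟨b, hv, rfl⟩
    · rintro (⟨a, ha, rfl⟩ | ⟨b, hb, rfl⟩)
      · exact ha
      · exact hb
  have h2 : S.card = ((SL S).image (Lf κ) ∪ (SR S).image (Rt ι)).card := congrArg _ h1
  rw [h2, Finset.card_union_of_disjoint, Finset.card_image_of_injective,
    Finset.card_image_of_injective]
  · exact fun a b h => Rt_inj.1 h
  · exact fun a b h => Lf_inj.1 h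
  · rw [Finset.disjoint_left]
    intro v hv hv'
    obtain ⟨a, _, rfl⟩ := Finset.mem_image.1 hv
    obtain ⟨b, _, e⟩ := Finset.mem_image.1 hv'
    exact Rt_ne_Lf e

lemma dom_L {S : Finset ((ι ⊕ κ) × Fin 3)} {a : ι × Fin 3}
    (h : ∃ u ∈ S, (gr (link p q x y)).Adj (Lf κ a) u) :
    (∃ u ∈ SL S, (gr p).Adj a u) ∨ (a = x ∧ y ∈ SR S) := by
  obtain ⟨u, hu, hadj⟩ := h
  rcases Lf_or_Rt u with ⟨b, rfl⟩ | ⟨b, rfl⟩
  · exact Or.inl ⟨b, mem_SL.2 hu, link_adj_LL hadj⟩
  · obtain ⟨h1, h2⟩ := link_adj_LR hadj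
    refine Or.inr ⟨h1, ?_⟩
    rw [mem_SR, ← h2]; exact hu

lemma dom_R {S : Finset ((ι ⊕ κ) × Fin 3)} {b : κ × Fin 3}
    (h : ∃ u ∈ S, (gr (link p q x y)).Adj (Rt ι b) u) :
    (∃ u ∈ SR S, (gr q).Adj b u) ∨ (b = y ∧ x ∈ SL S) := by
  obtain ⟨u, hu, hadj⟩ := h
  rcases Lf_or_Rt u with ⟨a, rfl⟩ | ⟨a, rfl⟩
  · obtain ⟨h1, h2⟩ := link_adj_LR hadj.symm
    refine Or.inr ⟨h2, ?_⟩
    rw [mem_SL, ← h1]; exact hu
  · exact Or.inl ⟨a, mem_SR.2 hu, link_adj_RR hadj⟩

end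

/-- lower bound for an odd end-piece with port `x0`: if all vertices are dominated, where `x0`
may be dominated from outside when `k > 0`, then `L ≤ |S| + k` -/
def FB {ι : Type} [DecidableEq ι] (p : ι × Fin 3 → ι × Fin 3) (x0 : ι × Fin 3) (L : ℕ) : Prop :=
  ∀ (S : Finset (ι × Fin 3)) (k : ℕ),
    (∀ v, (∃ u ∈ S, (gr p).Adj v u) ∨ (v = x0 ∧ 0 < k)) → L ≤ S.card + k

/-- lower bound for a piece rooted at a separating triangle -/
def AB {ι : Type} [DecidableEq ι] (p : ι × Fin 3 → ι × Fin 3) (x0 : ι × Fin 3) (L : ℕ) : Prop :=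
  ∀ S : Finset (ι × Fin 3), (∀ v, v.1 ≠ x0.1 → ∃ u ∈ S, (gr p).Adj v u) → L ≤ (S.erase x0).card

def F (N L : ℕ) : Prop := ∃ (ι : Type) (_ : Fintype ι) (_ : DecidableEq ι)
  (p : ι × Fin 3 → ι × Fin 3) (x0 : ι × Fin 3), Fintype.card ι = N ∧ Op p ∧
    (∀ x, p x = x ↔ x = x0) ∧ FB p x0 L

def A (N L : ℕ) : Prop := ∃ (ι : Type) (_ : Fintype ι) (_ : DecidableEq ι)
  (p : ι × Fin 3 → ι × Fin 3) (x0 : ι × Fin 3), Fintype.card ι = N ∧ Op p ∧
    (∀ x, p x = x ↔ x = x0) ∧ AB p x0 L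

def C (N L : ℕ) : Prop := ∃ (ι : Type) (_ : Fintype ι) (_ : DecidableEq ι)
  (p : ι × Fin 3 → ι × Fin 3), Fintype.card ι = N ∧ Op p ∧ (∀ x, p x ≠ x) ∧
    ∀ S : Finset (ι × Fin 3), (∀ v, ∃ u ∈ S, (gr p).Adj v u) → L ≤ S.card

/-- connectivity from connectivity of the triangles -/
lemma conn_of {ι : Type} (p : ι × Fin 3 → ι × Fin 3) (t0 : ι)
    (h : ∀ t, Relation.ReflTransGen (fun s t => ∃ i j, p (s, i) = (t, j)) t0 t) :
    (gr p).Connected := by
  have hsame : ∀ t i j, (gr p).Reachable (t, i) (t, j) := by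
    intro t i j
    by_cases hij : i = j
    · rw [hij]
    · exact SimpleGraph.Adj.reachable ⟨fun e => hij (congrArg Prod.snd e), Or.inl rfl⟩
  have hroot : ∀ t, (gr p).Reachable (t0, 0) (t, 0) := by
    intro t
    induction h t with
    | refl => exact SimpleGraph.Reachable.refl _
    | tail _ hst ih =>
      obtain ⟨i, j, e⟩ := hst
      refine ih.trans ((hsame _ 0 i).trans (SimpleGraph.Reachable.trans ?_ (hsame _ j 0)))
      rename_i s t _
      by_cases hne : (s, i) = (t, j)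
      · rw [hne]
      · exact SimpleGraph.Adj.reachable ⟨hne, Or.inr (Or.inl e.symm)⟩
  have : Nonempty (ι × Fin 3) := ⟨(t0, 0)⟩
  refine ⟨?_⟩
  rintro ⟨s, i⟩ ⟨t, j⟩
  exact (((hroot s).trans (hsame s 0 i)).symm).trans ((hroot t).trans (hsame t 0 j))

/-- a single triangle -/
lemma node_op : Op (id : Unit × Fin 3 → Unit × Fin 3) := by
  refine ⟨fun _ => rfl, fun _ => Or.inl rfl, conn_of _ () ?_⟩
  intro t
  cases t
  exact Relation.ReflTransGen.refl

lemma card_node (S : Finset (Unit × Fin 3)) :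
    S.card = (if ((), 0) ∈ S then 1 else 0) + (if ((), 1) ∈ S then 1 else 0) +
      (if ((), 2) ∈ S then 1 else 0) := by
  have h1 : S = univ.filter (fun x => x ∈ S) := by ext; simp
  conv_lhs => rw [h1]
  rw [Finset.card_filter, Fintype.sum_prod_type, Fintype.sum_unique, Fin.sum_univ_three]

lemma node_adj {a b : Unit × Fin 3} : (gr (id : Unit × Fin 3 → Unit × Fin 3)).Adj a b ↔ a ≠ b := by
  rw [gr_adj]
  constructor
  · exact fun h => h.1
  · intro h; exact ⟨h, Or.inl rfl⟩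

/-- domination inside a node -/
lemma node_dom {S : Finset (Unit × Fin 3)} {i : Fin 3}
    (h : ∃ u ∈ S, (gr (id : Unit × Fin 3 → Unit × Fin 3)).Adj ((), i) u) :
    ∃ j, j ≠ i ∧ ((), j) ∈ S := by
  obtain ⟨⟨⟨⟩, j⟩, hu, hadj⟩ := h
  rw [node_adj] at hadj
  exact ⟨j, fun e => hadj (by rw [e]), hu⟩

lemma erase_card {α : Type*} [DecidableEq α] (S : Finset α) (x : α) :
    (S.erase x).card + (if x ∈ S then 1 else 0) = S.card := by
  split_ifs with h
  · exact Finset.card_erase_add_one h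
  · rw [Finset.erase_eq_of_notMem h]; rfl

end R45.CFD
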