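import Pool.Agent.R45.CFD3

/-!
The recursive constructions of gadgets.
-/

namespace R45.CFD

open SimpleGraph Finset

set_option linter.unusedSectionVars false
set_option linter.unusedTactic false

/-- joining two odd end-pieces at a separating triangle -/
lemma join_A {N1 L1 N2 L2 : ℕ} (h1 : F N1 L1) (h2 : F N2 L2) : A (N1 + N2 + 1) (L1 + L2) := by
  obtain ⟨ι, _, _, p, x, hN1, hp, hpx, hF1⟩ := h1
  obtain ⟨κ, _, _, q, y, hN2, hq, hqy, hF2⟩ := h2
  have hx : p x = x := (hpx x).2 rfl
  have hy : q y = y := (hqy y).2 rfl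
  let nd : Unit × Fin 3 → Unit × Fin 3 := id
  have ho1 : Op (link nd p ((), 0) x) := link_op node_op hp rfl hx
  have hz1 : link nd p ((), 0) x (Lf ι ((), 1)) = Lf ι ((), 1) := by
    rw [link_fix]; left; exact ⟨((), 1), rfl, by decide, rfl⟩
  have ho2 : Op (link (link nd p ((), 0) x) q (Lf ι ((), 1)) y) := link_op ho1 hq hz1 hy
  refine ⟨(Unit ⊕ ι) ⊕ κ, inferInstance, inferInstance, _, Lf κ (Lf ι ((), 2)), ?_, ho2, ?_, ?_⟩
  · simp only [Fintype.card_sum, Fintype.card_unit]; omega
  · intro v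
    rw [link_fix]
    constructor
    · rintro (⟨a, rfl, h1, h2⟩ | ⟨b, rfl, h1, h2⟩)
      · rw [link_fix] at h2
        rcases h2 with ⟨c, rfl, h3, h4⟩ | ⟨c, rfl, h3, h4⟩
        · obtain ⟨⟨⟩, i⟩ := c
          fin_cases i
          · exact absurd rfl h3
          · exact absurd rfl h1
          · rfl
        · exact absurd ((hpx c).1 h4) h3
      · exact absurd ((hqy b).1 h2) h1
    · rintro rfl
      left
      refine ⟨_, rfl, ?_, ?_⟩
      · rw [Ne, Lf_inj]; decide
      · rw [link_fix]; left; exact ⟨_, rfl, by decide, rfl⟩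
  · intro S hS
    have b1 : L1 ≤ (SR (SL S)).card + (if ((), (0 : Fin 3)) ∈ SL (SL S) then 1 else 0) := by
      apply hF1
      intro v
      have h3 := dom_L (hS (Lf κ (Rt Unit v)) (by simp [Lf, Rt]))
      rcases h3 with h3 | ⟨h3, _⟩
      · rcases dom_R h3 with h4 | ⟨h4, h5⟩
        · exact Or.inl h4
        · right; exact ⟨h4, by rw [if_pos h5]; exact one_pos⟩
      · exact absurd h3 Rt_ne_Lf
    have b2 : L2 ≤ (SR S).card + (if ((), (1 : Fin 3)) ∈ SL (SL S) then 1 else 0) := by
      apply hF2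
      intro v
      rcases dom_R (hS (Rt _ v) (by simp [Lf, Rt])) with h4 | ⟨h4, h5⟩
      · exact Or.inl h4
      · right; exact ⟨h4, by rw [if_pos (mem_SL.2 h5)]; exact one_pos⟩
    have c1 := card_S S
    have c2 := card_S (SL S)
    have c3 := card_node (SL (SL S))
    have c4 := erase_card S (Lf κ (Lf ι ((), (2 : Fin 3))))
    have c5 : (if Lf κ (Lf ι ((), (2 : Fin 3))) ∈ S then 1 else 0) =
        (if ((), (2 : Fin 3)) ∈ SL (SL S) then 1 else 0) := by
      simp only [mem_SL]
    rw [c5] at c4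
    omega

/-- joining two pieces rooted at separating triangles to an odd piece -/
lemma join_F {N1 L1 N2 L2 : ℕ} (h1 : A N1 L1) (h2 : A N2 L2) : F (N1 + N2 + 1) (L1 + L2 + 2) := by
  obtain ⟨ι, _, _, p, x, hN1, hp, hpx, hF1⟩ := h1
  obtain ⟨κ, _, _, q, y, hN2, hq, hqy, hF2⟩ := h2
  have hx : p x = x := (hpx x).2 rfl
  have hy : q y = y := (hqy y).2 rfl
  let nd : Unit × Fin 3 → Unit × Fin 3 := id
  have ho1 : Op (link nd p ((), 0) x) := link_op node_op hp rfl hx
  have hz1 : link nd p ((), 0) x (Lf ι ((), 1)) = Lf ι ((), 1) := by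
    rw [link_fix]; left; exact ⟨((), 1), rfl, by decide, rfl⟩
  have ho2 : Op (link (link nd p ((), 0) x) q (Lf ι ((), 1)) y) := link_op ho1 hq hz1 hy
  refine ⟨(Unit ⊕ ι) ⊕ κ, inferInstance, inferInstance, _, Lf κ (Lf ι ((), 2)), ?_, ho2, ?_, ?_⟩
  · simp only [Fintype.card_sum, Fintype.card_unit]; omega
  · intro v
    rw [link_fix]
    constructor
    · rintro (⟨a, rfl, h1, h2⟩ | ⟨b, rfl, h1, h2⟩)
      · rw [link_fix] at h2
        rcases h2 with ⟨c, rfl, h3, h4⟩ | ⟨c, rfl, h3, h4⟩
        · obtain ⟨⟨⟩, i⟩ := c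
          fin_cases i
          · exact absurd rfl h3
          · exact absurd rfl h1
          · rfl
        · exact absurd ((hpx c).1 h4) h3
      · exact absurd ((hqy b).1 h2) h1
    · rintro rfl
      left
      refine ⟨_, rfl, ?_, ?_⟩
      · rw [Ne, Lf_inj]; decide
      · rw [link_fix]; left; exact ⟨_, rfl, by decide, rfl⟩
  · intro S k hS
    have b1 : L1 ≤ ((SR (SL S)).erase x).card := by
      apply hF1
      intro v hv
      rcases hS (Lf κ (Rt Unit v)) with h3 | ⟨h3, _⟩
      · rcases dom_L h3 with h3 | ⟨h3, _⟩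
        · rcases dom_R h3 with h4 | ⟨h4, h5⟩
          · exact h4
          · exact absurd (by rw [h4]) hv
        · exact absurd h3 Rt_ne_Lf
      · rw [Lf_inj] at h3; exact absurd h3 Rt_ne_Lf
    have b2 : L2 ≤ ((SR S).erase y).card := by
      apply hF2
      intro v hv
      rcases hS (Rt _ v) with h3 | ⟨h3, _⟩
      · rcases dom_R h3 with h4 | ⟨h4, h5⟩
        · exact h4
        · exact absurd (by rw [h4]) hv
      · exact absurd h3 Rt_ne_Lf
    have d : ∀ i : Fin 3, (∃ j, j ≠ i ∧ ((), j) ∈ SL (SL S)) ∨ (i = 0 ∧ x ∈ SR (SL S)) ∨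
        (i = 1 ∧ y ∈ SR S) ∨ (i = 2 ∧ 0 < k) := by
      intro i
      rcases hS (Lf κ (Lf ι ((), i))) with h3 | ⟨h3, h4⟩
      · rcases dom_L h3 with h3 | ⟨h3, h4⟩
        · rcases dom_L h3 with h3 | ⟨h3, h4⟩
          · exact Or.inl (node_dom h3)
          · right; left
            exact ⟨congrArg Prod.snd h3, h4⟩
        · right; right; left
          rw [Lf_inj] at h3
          exact ⟨congrArg Prod.snd h3, h4⟩
      · right; right; right
        rw [Lf_inj, Lf_inj] at h3
        exact ⟨congrArg Prod.snd h3, h4⟩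
    have c1 := card_S S
    have c2 := card_S (SL S)
    have c3 := card_node (SL (SL S))
    have c4 := erase_card (SR (SL S)) x
    have c5 := erase_card (SR S) y
    have key : 2 ≤ (SL (SL S)).card + (if x ∈ SR (SL S) then 1 else 0) +
        (if y ∈ SR S then 1 else 0) + k := by
      rw [c3]
      have d0 := d 0
      have d1 := d 1
      have d2 := d 2
      by_cases e0 : ((), (0 : Fin 3)) ∈ SL (SL S) <;> by_cases e1 : ((), (1 : Fin 3)) ∈ SL (SL S) <;>
      by_cases e2 : ((), (2 : Fin 3)) ∈ SL (SL S) <;> by_cases e3 : x ∈ SR (SL S) <;>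
      by_cases e4 : y ∈ SR S <;> by_cases e5 : 0 < k <;>
      simp [e0, e1, e2, e3, e4, e5, Fin.exists_fin_succ] at d0 d1 d2 ⊢ <;> omega
    omega

/-- closing up -/
lemma close_C {N1 L1 N2 L2 : ℕ} (h1 : A N1 L1) (h2 : F N2 L2) : C (N1 + N2) (L1 + L2) := by
  obtain ⟨ι, _, _, p, x, hN1, hp, hpx, hF1⟩ := h1
  obtain ⟨κ, _, _, q, y, hN2, hq, hqy, hF2⟩ := h2
  have hx : p x = x := (hpx x).2 rfl
  have hy : q y = y := (hqy y).2 rfl
  refine ⟨ι ⊕ κ, inferInstance, inferInstance, link p q x y, ?_, link_op hp hq hx hy, ?_, ?_⟩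
  · simp only [Fintype.card_sum]; omega
  · intro v
    rw [Ne, link_fix]
    rintro (⟨a, rfl, h1, h2⟩ | ⟨b, rfl, h1, h2⟩)
    · exact h1 ((hpx a).1 h2)
    · exact h1 ((hqy b).1 h2)
  · intro S hS
    have b1 : L1 ≤ ((SL S).erase x).card := by
      apply hF1
      intro v hv
      rcases dom_L (hS (Lf κ v)) with h4 | ⟨h4, h5⟩
      · exact h4
      · exact absurd (by rw [h4]) hv
    have b2 : L2 ≤ (SR S).card + (if x ∈ SL S then 1 else 0) := by
      apply hF2
      intro v
      rcases dom_R (hS (Rt _ v)) with h4 | ⟨h4, h5⟩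
      · exact Or.inl h4
      · right; exact ⟨h4, by rw [if_pos h5]; exact one_pos⟩
    have c1 := card_S S
    have c4 := erase_card (SL S) x
    omega

/-- closing up two odd pieces (used for existence only) -/
lemma close_FF {N1 L1 N2 L2 : ℕ} (h1 : F N1 L1) (h2 : F N2 L2) : C (N1 + N2) 0 := by
  obtain ⟨ι, _, _, p, x, hN1, hp, hpx, hF1⟩ := h1
  obtain ⟨κ, _, _, q, y, hN2, hq, hqy, hF2⟩ := h2
  have hx : p x = x := (hpx x).2 rfl
  have hy : q y = y := (hqy y).2 rfl
  refine ⟨ι ⊕ κ, inferInstance, inferInstance, link p q x y, ?_, link_op hp hq hx hy, ?_, ?_⟩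
  · simp only [Fintype.card_sum]; omega
  · intro v
    rw [Ne, link_fix]
    rintro (⟨a, rfl, h1, h2⟩ | ⟨b, rfl, h1, h2⟩)
    · exact h1 ((hpx a).1 h2)
    · exact h1 ((hqy b).1 h2)
  · intro S hS; exact Nat.zero_le _

/-- the end-block with three triangles -/
def pB : Fin 3 × Fin 3 → Fin 3 × Fin 3 := fun x =>
  if x = (0, 0) then (0, 0) else if x = (0, 1) then (1, 0) else if x = (1, 0) then (0, 1)
  else if x = (0, 2) then (2, 0) else if x = (2, 0) then (0, 2) else if x = (1, 1) then (2, 1)
  else if x = (2, 1) then (1, 1) else if x = (1, 2) then (2, 2) else (1, 2)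

lemma pB_op : Op pB := by
  refine ⟨by decide, by decide, conn_of _ 0 ?_⟩
  intro t
  fin_cases t
  · exact Relation.ReflTransGen.refl
  · exact Relation.ReflTransGen.single ⟨1, 0, by decide⟩
  · exact Relation.ReflTransGen.single ⟨2, 0, by decide⟩

lemma base_bool : ∀ z0 z1 z2 u0 u1 u2 v0 v1 v2 k : Bool,
    (z1 || z2 || k) = true → (z0 || z2 || u0) = true → (z0 || z1 || v0) = true →
    (u1 || u2 || z1) = true → (u0 || u2 || v1) = true → (u0 || u1 || v2) = true →
    (v1 || v2 || z2) = true → (v0 || v2 || u1) = true → (v0 || v1 || u2) = true →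
    4 ≤ z0.toNat + z1.toNat + z2.toNat + (u0.toNat + u1.toNat + u2.toNat) +
      (v0.toNat + v1.toNat + v2.toNat) + k.toNat := by
  decide +kernel

lemma base_F : F 3 4 := by
  refine ⟨Fin 3, inferInstance, inferInstance, pB, (0, 0), by simp, pB_op, by decide, ?_⟩
  intro S k hS
  have hcard : S.card = ∑ t : Fin 3, ∑ i : Fin 3, (decide ((t, i) ∈ S)).toNat := by
    have h1 : S = univ.filter (fun x => x ∈ S) := by ext; simp
    conv_lhs => rw [h1]
    rw [Finset.card_filter, Fintype.sum_prod_type]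
    refine Finset.sum_congr rfl fun t _ => Finset.sum_congr rfl fun i _ => ?_
    by_cases h : (t, i) ∈ S <;> simp [h]
  have hk : (decide (0 < k)).toNat ≤ k := by
    by_cases h : 0 < k
    · simp [h]; omega
    · simp [h]
  have hd : ∀ v : Fin 3 × Fin 3, (∃ u : Fin 3 × Fin 3, (v ≠ u ∧ (v.1 = u.1 ∨ u = pB v ∨ v = pB u)) ∧
      decide (u ∈ S) = true) ∨ (v = (0, 0) ∧ decide (0 < k) = true) := by
    intro v
    rcases hS v with ⟨u, hu, hadj⟩ | ⟨h1, h2⟩
    · exact Or.inl ⟨u, hadj, by simpa using hu⟩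
    · exact Or.inr ⟨h1, by simpa using h2⟩
  have key := base_bool (decide ((0, 0) ∈ S)) (decide ((0, 1) ∈ S)) (decide ((0, 2) ∈ S))
    (decide ((1, 0) ∈ S)) (decide ((1, 1) ∈ S)) (decide ((1, 2) ∈ S))
    (decide ((2, 0) ∈ S)) (decide ((2, 1) ∈ S)) (decide ((2, 2) ∈ S)) (decide (0 < k))
  rw [hcard, Fin.sum_univ_three, Fin.sum_univ_three, Fin.sum_univ_three, Fin.sum_univ_three]
  refine le_trans (key ?_ ?_ ?_ ?_ ?_ ?_ ?_ ?_ ?_) (by omega)
  all_goals
    first
      | (rcases hd (0, 0) with ⟨⟨a, b⟩, hadj, hu⟩ | ⟨h1, h2⟩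
         · fin_cases a <;> fin_cases b <;>
             first
               | (exfalso; revert hadj; decide)
               | (simp at hu; simp [hu]; done)
         · first
             | (exfalso; revert h1; decide)
             | (simp at h2; simp [h2]; done))
      | (rcases hd (0, 1) with ⟨⟨a, b⟩, hadj, hu⟩ | ⟨h1, h2⟩
         · fin_cases a <;> fin_cases b <;>
             first
               | (exfalso; revert hadj; decide)
               | (simp at hu; simp [hu]; done)
         · (exfalso; revert h1; decide))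
      | (rcases hd (0, 2) with ⟨⟨a, b⟩, hadj, hu⟩ | ⟨h1, h2⟩
         · fin_cases a <;> fin_cases b <;>
             first
               | (exfalso; revert hadj; decide)
               | (simp at hu; simp [hu]; done)
         · (exfalso; revert h1; decide))
      | (rcases hd (1, 0) with ⟨⟨a, b⟩, hadj, hu⟩ | ⟨h1, h2⟩
         · fin_cases a <;> fin_cases b <;>
             first
               | (exfalso; revert hadj; decide)
               | (simp at hu; simp [hu]; done)
         · (exfalso; revert h1; decide))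
      | (rcases hd (1, 1) with ⟨⟨a, b⟩, hadj, hu⟩ | ⟨h1, h2⟩
         · fin_cases a <;> fin_cases b <;>
             first
               | (exfalso; revert hadj; decide)
               | (simp at hu; simp [hu]; done)
         · (exfalso; revert h1; decide))
      | (rcases hd (1, 2) with ⟨⟨a, b⟩, hadj, hu⟩ | ⟨h1, h2⟩
         · fin_cases a <;> fin_cases b <;>
             first
               | (exfalso; revert hadj; decide)
               | (simp at hu; simp [hu]; done)
         · (exfalso; revert h1; decide))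
      | (rcases hd (2, 0) with ⟨⟨a, b⟩, hadj, hu⟩ | ⟨h1, h2⟩
         · fin_cases a <;> fin_cases b <;>
             first
               | (exfalso; revert hadj; decide)
               | (simp at hu; simp [hu]; done)
         · (exfalso; revert h1; decide))
      | (rcases hd (2, 1) with ⟨⟨a, b⟩, hadj, hu⟩ | ⟨h1, h2⟩
         · fin_cases a <;> fin_cases b <;>
             first
               | (exfalso; revert hadj; decide)
               | (simp at hu; simp [hu]; done)
         · (exfalso; revert h1; decide))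
      | (rcases hd (2, 2) with ⟨⟨a, b⟩, hadj, hu⟩ | ⟨h1, h2⟩
         · fin_cases a <;> fin_cases b <;>
             first
               | (exfalso; revert hadj; decide)
               | (simp at hu; simp [hu]; done)
         · (exfalso; revert h1; decide))

/-- the digon -/
def pD : Fin 2 × Fin 3 → Fin 2 × Fin 3 := fun x =>
  if x = (0, 1) then (1, 1) else if x = (1, 1) then (0, 1) else if x = (0, 2) then (1, 2)
  else if x = (1, 2) then (0, 2) else x

lemma pD_op : Op pD := by
  refine ⟨by decide, by decide, conn_of _ 0 ?_⟩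
  intro t
  fin_cases t
  · exact Relation.ReflTransGen.refl
  · exact Relation.ReflTransGen.single ⟨1, 1, by decide⟩

/-- inserting a digon -/
lemma digon_F {N L : ℕ} (h : F N L) : F (N + 2) (L + 2) := by
  obtain ⟨κ, _, _, q, y, hN2, hq, hqy, hF2⟩ := h
  have hy : q y = y := (hqy y).2 rfl
  have hx : pD (0, 0) = (0, 0) := by decide
  refine ⟨Fin 2 ⊕ κ, inferInstance, inferInstance, link pD q (0, 0) y, Lf κ (1, 0), ?_,
    link_op pD_op hq hx hy, ?_, ?_⟩
  · simp only [Fintype.card_sum, Fintype.card_fin]; omega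
  · intro v
    rw [link_fix]
    constructor
    · rintro (⟨a, rfl, h1, h2⟩ | ⟨b, rfl, h1, h2⟩)
      · rw [Lf_inj]
        revert a
        decide
      · exact absurd ((hqy b).1 h2) h1
    · rintro rfl
      left
      exact ⟨_, rfl, by decide, by decide⟩
  · intro S k hS
    have b2 : L ≤ (SR S).card + (if ((0 : Fin 2), (0 : Fin 3)) ∈ SL S then 1 else 0) := by
      apply hF2
      intro v
      rcases hS (Rt _ v) with h3 | ⟨h3, _⟩
      · rcases dom_R h3 with h4 | ⟨h4, h5⟩
        · exact Or.inl h4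
        · right; exact ⟨h4, by rw [if_pos h5]; exact one_pos⟩
      · exact absurd h3 Rt_ne_Lf
    have d : ∀ i : Fin 3, (∃ u ∈ SL S, (gr pD).Adj (1, i) u) ∨ (i = 0 ∧ 0 < k) := by
      intro i
      rcases hS (Lf κ (1, i)) with h3 | ⟨h3, h4⟩
      · rcases dom_L h3 with h3 | ⟨h3, h4⟩
        · exact Or.inl h3
        · simp at h3
      · right
        rw [Lf_inj] at h3
        exact ⟨congrArg Prod.snd h3, h4⟩
    have c1 := card_S S
    have hcard : (SL S).card = (if ((0 : Fin 2), (0 : Fin 3)) ∈ SL S then 1 else 0) +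
        (if ((0 : Fin 2), (1 : Fin 3)) ∈ SL S then 1 else 0) +
        (if ((0 : Fin 2), (2 : Fin 3)) ∈ SL S then 1 else 0) +
        ((if ((1 : Fin 2), (0 : Fin 3)) ∈ SL S then 1 else 0) +
        (if ((1 : Fin 2), (1 : Fin 3)) ∈ SL S then 1 else 0) +
        (if ((1 : Fin 2), (2 : Fin 3)) ∈ SL S then 1 else 0)) := by
      have h1 : SL S = univ.filter (fun x => x ∈ SL S) := by ext; simp
      conv_lhs => rw [h1]
      rw [Finset.card_filter, Fintype.sum_prod_type, Fin.sum_univ_two, Fin.sum_univ_three,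
        Fin.sum_univ_three]
    have d0 : ((1 : Fin 2), (1 : Fin 3)) ∈ SL S ∨ ((1 : Fin 2), (2 : Fin 3)) ∈ SL S ∨ 0 < k := by
      rcases d 0 with ⟨⟨a, b⟩, hu, hadj⟩ | ⟨_, h⟩
      · rw [gr_adj] at hadj
        fin_cases a <;> fin_cases b <;>
          first
            | (exfalso; revert hadj; decide)
            | (simp at hu; simp [hu]; done)
      · exact Or.inr (Or.inr h)
    have d1 : ((1 : Fin 2), (0 : Fin 3)) ∈ SL S ∨ ((1 : Fin 2), (2 : Fin 3)) ∈ SL S ∨
        ((0 : Fin 2), (1 : Fin 3)) ∈ SL S := by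
      rcases d 1 with ⟨⟨a, b⟩, hu, hadj⟩ | ⟨h, _⟩
      · rw [gr_adj] at hadj
        fin_cases a <;> fin_cases b <;>
          first
            | (exfalso; revert hadj; decide)
            | (simp at hu; simp [hu]; done)
      · exact absurd h (by decide)
    have d2 : ((1 : Fin 2), (0 : Fin 3)) ∈ SL S ∨ ((1 : Fin 2), (1 : Fin 3)) ∈ SL S ∨
        ((0 : Fin 2), (2 : Fin 3)) ∈ SL S := by
      rcases d 2 with ⟨⟨a, b⟩, hu, hadj⟩ | ⟨h, _⟩
      · rw [gr_adj] at hadj
        fin_cases a <;> fin_cases b <;>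
          first
            | (exfalso; revert hadj; decide)
            | (simp at hu; simp [hu]; done)
      · exact absurd h (by decide)
    have key : 2 ≤ (if ((0 : Fin 2), (1 : Fin 3)) ∈ SL S then 1 else 0) +
        (if ((0 : Fin 2), (2 : Fin 3)) ∈ SL S then 1 else 0) +
        ((if ((1 : Fin 2), (0 : Fin 3)) ∈ SL S then 1 else 0) +
        (if ((1 : Fin 2), (1 : Fin 3)) ∈ SL S then 1 else 0) +
        (if ((1 : Fin 2), (2 : Fin 3)) ∈ SL S then 1 else 0)) + k := by
      by_cases e1 : ((0 : Fin 2), (1 : Fin 3)) ∈ SL S <;>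
      by_cases e2 : ((0 : Fin 2), (2 : Fin 3)) ∈ SL S <;>
      by_cases e3 : ((1 : Fin 2), (0 : Fin 3)) ∈ SL S <;>
      by_cases e4 : ((1 : Fin 2), (1 : Fin 3)) ∈ SL S <;>
      by_cases e5 : ((1 : Fin 2), (2 : Fin 3)) ∈ SL S <;>
      by_cases e6 : 0 < k <;>
      simp only [e1, e2, e3, e4, e5, e6, if_true, if_false, or_true, true_or, or_false, false_or]
        at d0 d1 d2 ⊢ <;> omega
    omega

/-- odd end-pieces of every size `3 + 2r + 12s` -/
lemma chain_F (r s : ℕ) : F (3 + 2 * r + 12 * s) (4 + 2 * r + 14 * s) := by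
  induction s with
  | zero =>
    induction r with
    | zero => exact base_F
    | succ r ih =>
      have := digon_F ih
      convert this using 1 <;> ring
  | succ s ih =>
    have h7 : A 7 8 := join_A base_F base_F
    have h2 := join_F (join_A ih base_F) h7
    convert h2 using 1 <;> ring

/-- the extremal graphs -/
lemma chain_C (r s : ℕ) : C (10 + 2 * r + 12 * s) (12 + 2 * r + 14 * s) := by
  have h7 : A 7 8 := join_A base_F base_F
  have := close_C h7 (chain_F r s)
  convert this using 1 <;> ring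

/-- the prism -/
def pP : Fin 2 × Fin 3 → Fin 2 × Fin 3 := fun x => (x.1 + 1, x.2)

lemma C2 : C 2 0 := by
  refine ⟨Fin 2, inferInstance, inferInstance, pP, by simp, ⟨by decide, by decide, conn_of _ 0 ?_⟩,
    by decide, fun _ _ => Nat.zero_le _⟩
  intro t
  fin_cases t
  · exact Relation.ReflTransGen.refl
  · exact Relation.ReflTransGen.single ⟨1, 1, by decide⟩

/-- the truncated `K_4` -/
def pK : Fin 4 × Fin 3 → Fin 4 × Fin 3 := fun x => (x.1 + Fin.castSucc x.2 + 1, 2 - x.2)

lemma C4 : C 4 0 := by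
  refine ⟨Fin 4, inferInstance, inferInstance, pK, by simp, ⟨by decide, by decide, conn_of _ 0 ?_⟩,
    by decide, fun _ _ => Nat.zero_le _⟩
  intro t
  fin_cases t
  · exact Relation.ReflTransGen.refl
  · exact Relation.ReflTransGen.single ⟨0, 2, by decide⟩
  · exact Relation.ReflTransGen.single ⟨1, 1, by decide⟩
  · exact Relation.ReflTransGen.single ⟨2, 0, by decide⟩

end R45.CFD
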